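import Pool.Agent.W_448mp_h83.MpA

/-!
Path pieces of a level: the number of edges is `2` modulo `4` (MP_448cb3_co).
-/

namespace Pool.Agent.GaussPoset.Mp

set_option linter.unusedSectionVars false

open Finset Win St Polynomial

universe u

variable {P : Type u} [Fintype P] [PartialOrder P] [DecidableEq P] {r i n : ℕ}

/-- a path piece of level `i` with `n` edges of defect `1` or `-1` -/
structure Pth (P : Type u) [Fintype P] [PartialOrder P] [DecidableEq P] (i n : ℕ) (p : ℕ → P) :
    Prop where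
  inj : ∀ a ≤ n, ∀ b ≤ n, p a = p b → a = b
  hlev : ∀ a ≤ n, lev (p a) = i
  edge : ∀ k < n, Df i {p k, p (k + 1)} = 1 ∨ Df i {p k, p (k + 1)} = -1
  nb : ∀ a ≤ n, ∀ w, lev w = i → w ≠ p a → Df i {p a, w} ≠ 0 →
    ∃ b ≤ n, w = p b ∧ (b = a + 1 ∨ a = b + 1)

variable {p : ℕ → P}

/-- the vertices -/
def Vs (n : ℕ) (p : ℕ → P) : Finset P := (range (n + 1)).image p

lemma mem_Vs {w : P} : w ∈ Vs n p ↔ ∃ a ≤ n, p a = w := by
  unfold Vs
  simp only [mem_image, mem_range, Nat.lt_succ_iff]

lemma Pth.pce (h : Pth P i n p) : Pce P i (Vs n p) := by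
  refine ⟨?_, ?_⟩
  · intro x hx
    obtain ⟨a, ha, rfl⟩ := mem_Vs.mp hx
    exact mem_lv.mpr (h.hlev a ha)
  · intro u hu w hw hn
    obtain ⟨a, ha, rfl⟩ := mem_Vs.mp hu
    by_contra hcon
    have hne : w ≠ p a := fun hh => hn (hh ▸ hu)
    obtain ⟨b, hb, rfl, -⟩ := h.nb a ha w hw hne hcon
    exact hn (mem_Vs.mpr ⟨b, hb, rfl⟩)

/-- the sign of an edge -/
noncomputable def sg (i : ℕ) (p : ℕ → P) (k : ℕ) : ℤ := Df i {p k, p (k + 1)}

/-- the edge on the left of a vertex -/
noncomputable def eL (i : ℕ) (p : ℕ → P) (a : ℕ) : ℤ := if 1 ≤ a then sg i p (a - 1) else 0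

/-- the edge on the right of a vertex -/
noncomputable def eR (i n : ℕ) (p : ℕ → P) (a : ℕ) : ℤ := if a < n then sg i p a else 0

lemma Pth.sum_nb (h : Pth P i n p) {g : ℤ → ℤ} (g0 : g 0 = 0) {a : ℕ} (ha : a ≤ n) :
    ∑ w ∈ (Vs n p).erase (p a), g (Df i {p a, w}) = g (eL i p a) + g (eR i n p a) := by
  classical
  have hsub : ((if 1 ≤ a then {p (a - 1)} else ∅) ∪ (if a < n then {p (a + 1)} else ∅) :
      Finset P) ⊆ (Vs n p).erase (p a) := by
    intro w hw
    rw [mem_union] at hw
    rw [mem_erase]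
    rcases hw with hw | hw
    · split_ifs at hw with h1
      · rw [mem_singleton] at hw
        subst hw
        refine ⟨fun hh => ?_, mem_Vs.mpr ⟨a - 1, by omega, rfl⟩⟩
        have := h.inj _ (by omega) _ ha hh
        omega
      · simp at hw
    · split_ifs at hw with h1
      · rw [mem_singleton] at hw
        subst hw
        refine ⟨fun hh => ?_, mem_Vs.mpr ⟨a + 1, by omega, rfl⟩⟩
        have := h.inj _ (by omega) _ ha hh
        omega
      · simp at hw
  rw [← Finset.sum_subset hsub]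
  · rw [Finset.sum_union]
    · congr 1
      · unfold eL
        split_ifs with h1
        · rw [sum_singleton]
          unfold sg
          rw [show a - 1 + 1 = a by omega, pair_comm]
        · rw [sum_empty, g0]
      · unfold eR
        split_ifs with h1
        · rw [sum_singleton]
          rfl
        · rw [sum_empty, g0]
    · rw [Finset.disjoint_left]
      intro w hw hw'
      split_ifs at hw with h1
      · split_ifs at hw' with h2
        · rw [mem_singleton] at hw hw'
          have := h.inj (a - 1) (by omega) (a + 1) (by omega) (hw.symm.trans hw')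
          omega
        · simp at hw'
      · simp at hw
  · intro w hw hn
    rw [mem_erase] at hw
    by_contra hcon
    have hne : Df i {p a, w} ≠ 0 := fun hh => hcon (by rw [hh, g0])
    obtain ⟨b, hb, hwb, hab⟩ := h.nb a ha w (mem_lv.mp (h.pce.sub hw.2)) hw.1 hne
    apply hn
    rw [mem_union, hwb]
    rcases hab with hab | hab
    · right
      rw [if_pos (by omega), mem_singleton, hab]
    · left
      rw [if_pos (by omega), mem_singleton]
      congr 1
      omega

lemma Pth.sum_Vs (h : Pth P i n p) {f : P → ℤ} :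
    ∑ u ∈ Vs n p, f u = ∑ a ∈ range (n + 1), f (p a) := by
  unfold Vs
  refine Finset.sum_image fun a ha b hb hab => ?_
  rw [mem_coe, mem_range] at ha hb
  exact h.inj a (by omega) b (by omega) hab

lemma sum_eL {f : ℤ → ℤ} (f0 : f 0 = 0) :
    ∑ a ∈ range (n + 1), f (eL i p a) = ∑ k ∈ range n, f (sg i p k) := by
  rw [Finset.sum_range_succ']
  have h1 : eL i p 0 = 0 := by
    unfold eL
    rw [if_neg (by omega)]
  rw [h1, f0, add_zero]
  refine Finset.sum_congr rfl fun k _ => ?_
  unfold eL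
  rw [if_pos (by omega), Nat.add_sub_cancel]

lemma sum_eR {f : ℤ → ℤ} (f0 : f 0 = 0) :
    ∑ a ∈ range (n + 1), f (eR i n p a) = ∑ k ∈ range n, f (sg i p k) := by
  rw [Finset.sum_range_succ]
  have h1 : eR i n p n = 0 := by
    unfold eR
    rw [if_neg (by omega)]
  rw [h1, f0, add_zero]
  refine Finset.sum_congr rfl fun k hk => ?_
  rw [mem_range] at hk
  unfold eR
  rw [if_pos hk]

/-- the sum of the signs vanishes -/
theorem Pth.lin (H : Gr P r) (hi : i ≤ r) (h : Pth P i n p) : ∑ k ∈ range n, sg i p k = 0 := by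
  have h1 := piece_lin H hi h.pce
  rw [h.sum_Vs] at h1
  have h2 : ∀ a ∈ range (n + 1), ∑ w ∈ (Vs n p).erase (p a), Df i {p a, w} =
      eL i p a + eR i n p a := by
    intro a ha
    rw [mem_range] at ha
    exact h.sum_nb (g := fun x => x) rfl (by omega)
  rw [Finset.sum_congr rfl h2, Finset.sum_add_distrib, sum_eL (f := fun x => x) rfl,
    sum_eR (f := fun x => x) rfl] at h1
  omega

lemma Pth.sq (h : Pth P i n p) {k : ℕ} (hk : k < n) : sg i p k ^ 2 = 1 := by
  rcases h.edge k hk with h1 | h1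
  · unfold sg
    rw [h1]
    norm_num
  · unfold sg
    rw [h1]
    norm_num

/-- the sum of the products of neighbouring signs -/
theorem Pth.quad (H : Gr P r) (hi : i ≤ r) (h : Pth P i (n + 1) p) :
    (n + 1 : ℤ) + 2 * ∑ k ∈ range n, sg i p k * sg i p (k + 1) = 0 := by
  have h1 := piece_quad H hi h.pce
  rw [h.sum_Vs, h.sum_Vs] at h1
  have h2 : ∀ a ∈ range (n + 1 + 1), (∑ w ∈ (Vs (n + 1) p).erase (p a), Df i {p a, w}) ^ 2 =
      eL i p a ^ 2 + eR i (n + 1) p a ^ 2 + 2 * (eL i p a * eR i (n + 1) p a) := by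
    intro a ha
    rw [mem_range] at ha
    rw [h.sum_nb (g := fun x => x) rfl (by omega)]
    ring
  have h3 : ∀ a ∈ range (n + 1 + 1), ∑ w ∈ (Vs (n + 1) p).erase (p a), Df i {p a, w} ^ 2 =
      eL i p a ^ 2 + eR i (n + 1) p a ^ 2 := by
    intro a ha
    rw [mem_range] at ha
    exact h.sum_nb (g := fun x => x ^ 2) (by norm_num) (by omega)
  rw [Finset.sum_congr rfl h2, Finset.sum_congr rfl h3, Finset.sum_add_distrib,
    Finset.sum_add_distrib, sum_eL (f := fun x => x ^ 2) (by norm_num),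
    sum_eR (f := fun x => x ^ 2) (by norm_num), ← Finset.mul_sum] at h1
  have h4 : ∑ k ∈ range (n + 1), sg i p k ^ 2 = (n + 1 : ℤ) := by
    rw [Finset.sum_congr rfl (g := fun _ => (1 : ℤ)) (fun k hk => h.sq (mem_range.mp hk)),
      Finset.sum_const, card_range]
    simp
  have h5 : ∑ a ∈ range (n + 1 + 1), eL i p a * eR i (n + 1) p a =
      ∑ k ∈ range n, sg i p k * sg i p (k + 1) := by
    rw [Finset.sum_range_succ', Finset.sum_range_succ]
    have e1 : eL i p 0 = 0 := by
      unfold eL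
      rw [if_neg (by omega)]
    have e2 : eR i (n + 1) p (n + 1) = 0 := by
      unfold eR
      rw [if_neg (by omega)]
    rw [e1, e2, zero_mul, mul_zero, add_zero, add_zero]
    refine Finset.sum_congr rfl fun k hk => ?_
    rw [mem_range] at hk
    unfold eL eR
    rw [if_pos (by omega), if_pos (by omega), Nat.add_sub_cancel]
  rw [h4, h5] at h1
  linarith

/-- **the number of edges of a path piece is `2` modulo `4`** -/
theorem Pth.mod (H : Gr P r) (hi : i ≤ r) (h : Pth P i n p) : n = 0 ∨ n % 4 = 2 := by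
  rcases n with _ | n
  · exact Or.inl rfl
  right
  have h1 := h.quad H hi
  have h2 : ∀ m, m ≤ n → ∃ c : ℤ, ∑ k ∈ range m, sg i p k * sg i p (k + 1) = m + 2 * c := by
    intro m
    induction m with
    | zero => exact fun _ => ⟨0, by simp⟩
    | succ m ih =>
      intro hm
      obtain ⟨c, hc⟩ := ih (by omega)
      rw [Finset.sum_range_succ, hc]
      have e1 : sg i p m = 1 ∨ sg i p m = -1 := h.edge m (by omega)
      have e2 : sg i p (m + 1) = 1 ∨ sg i p (m + 1) = -1 := h.edge (m + 1) (by omega)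
      rcases e1 with e1 | e1 <;> rcases e2 with e2 | e2 <;> rw [e1, e2]
      · exact ⟨c, by push_cast; ring⟩
      · exact ⟨c - 1, by push_cast; ring⟩
      · exact ⟨c - 1, by push_cast; ring⟩
      · exact ⟨c, by push_cast; ring⟩
  obtain ⟨c, hc⟩ := h2 n le_rfl
  rw [hc] at h1
  omega

/-- the signs of a path piece with two edges -/
theorem Pth.two (H : Gr P r) (hi : i ≤ r) (h : Pth P i 2 p) : sg i p 1 = -sg i p 0 := by
  have h1 := h.lin H hi
  simp only [Finset.sum_range_succ, Finset.sum_range_zero] at h1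
  linarith

/-- the signs of a path piece with six edges: four patterns -/
theorem Pth.six (H : Gr P r) (hi : i ≤ r) (h : Pth P i 6 p) :
    sg i p 1 = -sg i p 0 ∧ sg i p 3 = -sg i p 2 ∧ sg i p 4 = -sg i p 0 ∧ sg i p 5 = sg i p 0 := by
  have h1 := h.lin H hi
  have h2 := Pth.quad (n := 5) H hi h
  simp only [Finset.sum_range_succ, Finset.sum_range_zero] at h1 h2
  have e0 : sg i p 0 = 1 ∨ sg i p 0 = -1 := h.edge 0 (by omega)
  have e1 : sg i p 1 = 1 ∨ sg i p 1 = -1 := h.edge 1 (by omega)
  have e2 : sg i p 2 = 1 ∨ sg i p 2 = -1 := h.edge 2 (by omega)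
  have e3 : sg i p 3 = 1 ∨ sg i p 3 = -1 := h.edge 3 (by omega)
  have e4 : sg i p 4 = 1 ∨ sg i p 4 = -1 := h.edge 4 (by omega)
  have e5 : sg i p 5 = 1 ∨ sg i p 5 = -1 := h.edge 5 (by omega)
  norm_num at h2
  rcases e0 with e0 | e0 <;> rcases e1 with e1 | e1 <;> rcases e2 with e2 | e2 <;>
    rcases e3 with e3 | e3 <;> rcases e4 with e4 | e4 <;> rcases e5 with e5 | e5 <;>
    rw [e0, e1, e2, e3, e4, e5] at h1 h2 <;> rw [e0, e1, e2, e3, e4, e5] <;> omega

end Pool.Agent.GaussPoset.Mp
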