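import Pool.Agent.W_448s7s_h5.SpC
import Pool.Agent.W_448s7s_h5.SkU

/-!
# The twin pair of the rectangle cell `(2, j - 1)` at the window `3` (MP_448cb3_co, S8, `j = 12`)
-/

namespace Pool.Agent.GaussPoset.Rt

set_option linter.unusedSectionVars false

open Polynomial Finset Sm

universe u

variable {P : Type u} [Fintype P] [PartialOrder P] [DecidableEq P] {r j w K v : ℕ}
  {N : Tops P → Finset P} {b : Tops P → ℕ} {θ : Tops P → P → ℕ}

/-- a pair of twins of level `j + 1` in the position of the rectangle cell `(2, j - 1)` -/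
structure RtP (j : ℕ) (x x' : P) : Prop where
  ne : x ≠ x'
  up : ∀ y, x < y ↔ x' < y
  only : x ∈ onlyB (topOf x)
  hl : lev x = j + 1
  two : nab j x = 2
  three : nab 3 x = 3

/-- there is a pair of twins in the position of the rectangle cell `(2, j - 1)` -/
def RTw (P : Type u) [Fintype P] [PartialOrder P] [DecidableEq P] (j : ℕ) : Prop :=
  ∃ x x' : P, RtP j x x'

/-- an unnatural twin of a natural element with this profile is such a pair -/
theorem rtp_of_twA (W : Wk r j w K N b θ) {x : P} (hx : x ∈ twA N) (hl : lev x = j + 1)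
    (h2 : nab j x = 2) (h3 : nab 3 x = 3) : RtP j x (twT N x) := by
  have HN := W.natSys
  have h1 := mem_twA.mp hx
  have h4 := twT_spec h1.2
  have h5 : twT N x ∈ N (topOf (twT N x)) := HN.mem_iff.mpr ⟨h4.1, rfl⟩
  refine ⟨?_, fun y => (h4.2 y).symm, ?_, hl, h2, h3⟩
  · intro h
    exact h4.1 (h ▸ h1.1)
  · rw [mem_onlyB]
    have key : ∀ s : P, lev s = 0 → x ≤ s → s = topOf (twT N x) := by
      intro s hs hxs
      have h6 : x < s := lt_of_le_of_ne hxs (by rintro rfl; omega)
      exact HN.top_eq h5 hs ((h4.2 s).mpr h6).le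
    intro s hs hxs
    rw [key s hs hxs, key (topOf x) (topOf x).2 (le_topOf x)]

/-- a pair in this position: the cell of a rectangle, the other element is a twin -/
theorem RtP.data (W : Wk r j 3 K N b θ) (L : Unq P 3 b) {x x' : P} (h : RtP j x x') :
    ∃ n0 z, n0 ∉ unnat N ∧ z ∈ twA N ∧ twT N z = n0 ∧ (∀ y, x < y ↔ n0 < y) ∧
      (n0 = x ∨ n0 = x') ∧ (z = x ∨ z = x') ∧ 3 ≤ b (topOf n0) ∧
      θ (topOf n0) n0 + 4 = j ∧ ∀ k, 2 ≤ k → k < j → nab k n0 = 3 := by
  classical
  obtain ⟨hne, hup, honly, hl, h2, h3⟩ := h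
  have H := W.gt.H
  have HN := W.natSys
  have hg := W.gt.good
  have hj := W.hj
  have hl' : lev x' = j + 1 := by rw [← lev_eq_of_up hup]; exact hl
  have huc := Sm.nab_uc H (z := x) (k := j) hl
  have huc2 : (Win.uc x).card = 2 := by omega
  obtain ⟨y1, y2, hy12, huc'⟩ := Finset.card_eq_two.mp huc2
  have hx1 : x ⋖ y1 := Win.mem_uc.mp (by rw [huc']; simp)
  have hx2 : x ⋖ y2 := Win.mem_uc.mp (by rw [huc']; simp)
  have hcov : ∀ y, x ⋖ y → y = y1 ∨ y = y2 := by
    intro y hy
    have h4 := Win.mem_uc.mpr hy
    rw [huc'] at h4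
    simpa using h4
  have l1 := (H.covBy_iff.mp hx1).2
  have l2 := (H.covBy_iff.mp hx2).2
  generalize ht : topOf x = t at honly
  have g1 := onlyB_le (onlyB_up honly hx1.1.le)
  have g2 := onlyB_le (onlyB_up honly hx2.1.le)
  have m1 : y1 ∈ lowPart j (t : P) := mem_lowPart.mpr ⟨g1, by omega⟩
  have m2 : y2 ∈ lowPart j (t : P) := mem_lowPart.mpr ⟨g2, by omega⟩
  rcases W.typ t with ⟨k1, k2, k3, k5⟩ | ⟨Nc, co, h0, k1, k2, k4⟩ |
    ⟨Nc, co, h0, k1, k2, k3, k4, k5'⟩
  · -- light
    exfalso
    have : nab 3 x ≤ 1 := by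
      unfold nab
      rw [Finset.card_le_one]
      intro a ha a' ha'
      rw [mem_filter, mem_lv] at ha ha'
      exact L t k3 a a' (onlyB_le (onlyB_up honly ha.2)) (onlyB_le (onlyB_up honly ha'.2))
        ha.1 ha'.1
    omega
  · -- rectangle
    have n1 := h0.strip m1
    have n2 := h0.strip m2
    have c1 := h0.chart.lev y1 n1
    have c2 := h0.chart.lev y2 n2
    have hend : ∀ y, y ∈ Nc → lev y = j → (Win.uc y).card = 1 → nab 3 y = 1 := by
      intro y hy hly h4
      have h5 : (co y).1 = 0 ∨ (co y).2 = 0 := by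
        by_contra hcon
        have := chart_inner_uc h0.chart H hy (by omega) (by omega)
        omega
      have h6 := rect_nab h0.chart hy (k := 3) (by omega)
      have h7 := h0.chart.lev y hy
      omega
    have G' : Win.GoodTo P r ((j - 1) + 1) := by
      rw [show j - 1 + 1 = j by omega]
      exact W.gt
    rcases (Win.near_level' G' (by omega)).1 x y1 y2 (by omega) hx1 hx2 hy12 with h1 | ⟨e1, e2, _⟩
    · obtain ⟨u, hu, hu'⟩ := Win.exists_of_ucv (v := y1) (v' := y2) (by rw [h1]; exact one_pos)
      have nu := h0.chart.up y1 n1 u hu.1.le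
      have p1 := (chart_cov h0.chart H n1 nu).mp hu
      have p2 := (chart_cov h0.chart H n2 nu).mp hu'
      have hne' : co y1 ≠ co y2 := fun hh => hy12 (h0.chart.inj y1 n1 y2 n2 hh)
      -- the two covers in order
      obtain ⟨q1, q2, a, c, r1, r2, r3, r4, d1, d2, r5, r6⟩ : ∃ q1 q2 : P, ∃ a c : ℕ, q1 ∈ Nc ∧
          q2 ∈ Nc ∧ x ⋖ q1 ∧ x ⋖ q2 ∧ co q1 = (a + 1, c) ∧ co q2 = (a, c + 1) ∧
          (∀ y, x ⋖ y → y = q1 ∨ y = q2) ∧ a + c + 1 = j := by
        unfold Prd at p1 p2
        have hh : (co y1).1 ≠ (co y2).1 ∨ (co y1).2 ≠ (co y2).2 := by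
          by_contra hh
          push Not at hh
          exact hne' (Prod.ext hh.1 hh.2)
        rcases p1 with p1 | p1 <;> rcases p2 with p2 | p2
        · omega
        · exact ⟨y1, y2, (co u).1, (co u).2, n1, n2, hx1, hx2,
            Prod.ext (by simp only; omega) (by simp only; omega),
            Prod.ext (by simp only; omega) (by simp only; omega), hcov, by omega⟩
        · exact ⟨y2, y1, (co u).1, (co u).2, n2, n1, hx2, hx1,
            Prod.ext (by simp only; omega) (by simp only; omega),
            Prod.ext (by simp only; omega) (by simp only; omega),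
            fun y hy => (hcov y hy).symm, by omega⟩
        · omega
      have hcell : ∀ z, z ∈ Nc → z ⋖ q1 → z ⋖ q2 → co z = (a + 1, c + 1) := by
        intro z hz s1 s2
        have s3 := (chart_cov h0.chart H hz r1).mp s1
        have s4 := (chart_cov h0.chart H hz r2).mp s2
        rw [d1] at s3
        rw [d2] at s4
        unfold Prd at s3 s4
        simp only at s3 s4
        exact Prod.ext (by simp only; omega) (by simp only; omega)
      have r3' := (cov_of_up hup).mp r3
      have r4' := (cov_of_up hup).mp r4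
      -- the natural element
      obtain ⟨n0, z, hn0, hz, hn0c, hzN, hn0z, u0, uz⟩ : ∃ n0 z : P, (n0 = x ∨ n0 = x') ∧
          (z = x ∨ z = x') ∧ n0 ∈ Nc ∧ z ∉ Nc ∧ n0 ≠ z ∧ (∀ y, x < y ↔ n0 < y) ∧
          (∀ y, x < y ↔ z < y) := by
        by_cases hxN : x ∈ Nc
        · refine ⟨x, x', Or.inl rfl, Or.inr rfl, hxN, fun hx' => ?_, hne, fun _ => Iff.rfl, hup⟩
          exact hne (h0.chart.inj x hxN x' hx' (by
            rw [hcell x hxN r3 r4, hcell x' hx' r3' r4']))
        · obtain ⟨y, hy, -, s1, s2, s3⟩ := max_pair h0.chart h0.max H hxN r1 r2 r3 r4 d1 d2 trivial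
          have hyx : y = x' := by
            by_contra hcon
            exact Win.dc_three H s1 r3 r3' s3 hcon hne
          exact ⟨x', x, Or.inr rfl, Or.inl rfl, hyx ▸ hy, hxN, hne.symm, hup, fun _ => Iff.rfl⟩
      have s1 : n0 ⋖ q1 := (cov_of_up u0).mp r3
      have s2 : n0 ⋖ q2 := (cov_of_up u0).mp r4
      have t1 : z ⋖ q1 := (cov_of_up uz).mp r3
      have t2 : z ⋖ q2 := (cov_of_up uz).mp r4
      have cn := hcell n0 hn0c s1 s2
      have ln : lev n0 = j + 1 := by rw [← lev_eq_of_up u0]; exact hl
      have hn3 : nab 3 n0 = 3 := by rw [← nab_congr_up u0 (by omega)]; exact h3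
      have e3 := rect_nab h0.chart hn0c (k := 3) (by omega)
      rw [cn] at e3
      simp only at e3
      have hac : (a = 1 ∧ c + 2 = j) ∨ (c = 1 ∧ a + 2 = j) := by omega
      have hnn : n0 ∈ N t := by
        rw [k1, mem_natR]
        exact Or.inl hn0c
      have hnu : n0 ∉ unnat N := fun hh => mem_unnat.mp hh t hnn
      have htop : topOf n0 = t := HN.topOf_eq hnn
      have hJ1 := not_junk_above h0.chart hn0c (by rw [cn]; simp only; omega) le_rfl
      have hJ2 := not_junk_above h0.chart.swap hn0c (by rw [swp_fst, cn]; simp only; omega) le_rfl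
      have hzu : z ∈ unnat N := by
        rw [mem_unnat]
        intro s hs
        have h5 : s = t := by
          have h6 := HN.topOf_eq hs
          have h7 : (t : P) = s := HN.top_eq hs t.2 (by
            have : q1 ≤ (t : P) := h0.chart.le_t q1 r1
            exact t1.1.le.trans this)
          exact (Subtype.ext h7).symm
        subst h5
        rw [k1, mem_natR] at hs
        rcases hs with h5 | h5 | h5
        · exact hzN h5
        · obtain ⟨x1, H1, hj1⟩ := mem_junk.mp h5
          have hz1 := (mem_jset.mp hj1).1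
          have hn1 : n0 < x1 := (u0 x1).mp ((uz x1).mpr hz1)
          have h6 := (h0.chart.le_iff n0 hn0c x1 H1.mem).mp hn1.le
          have h7 := H1.lt n0 hn0c (by rw [cn]; simp only; omega)
          have h8 := h6.2
          omega
        · obtain ⟨x1, H1, hj1⟩ := mem_junk.mp h5
          have hz1 := (mem_jset.mp hj1).1
          have hn1 : n0 < x1 := (u0 x1).mp ((uz x1).mpr hz1)
          have h6 := (h0.chart.swap.le_iff n0 hn0c x1 H1.mem).mp hn1.le
          have h7 := H1.lt n0 hn0c (by rw [swp_fst, cn]; simp only; omega)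
          have h8 := h6.2
          omega
      have hzt : z ∈ twA N := mem_twA.mpr ⟨hzu, n0, hnu, fun y => (u0 y).symm.trans (uz y)⟩
      have htw : twT N z = n0 := by
        have h5 := twT_spec (mem_twA.mp hzt).2
        by_contra hcon
        refine Win.dc_three H ((cov_of_up h5.2).mpr t1) s1 t1 hcon (fun hh => ?_) hn0z
        rw [hh] at h5
        exact h5.1 hzu
      have hth := rect_th7 h0 (by omega) hn0c (by
        rintro (hh | hh)
        · exact hJ1 hh
        · exact hJ2 hh) (by omega)
      rw [cn] at hth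
      simp only at hth
      refine ⟨n0, z, hnu, hzt, htw, u0, hn0, hz, ?_, ?_, ?_⟩
      · rw [htop]
        rcases h0.rows with h5 | h5
        · omega
        · have := h5 n0 hn0c
          rw [cn] at this
          simp only at this
          omega
      · rw [htop, k2]
        omega
      · intro k hk1 hk2
        have := rect_nab h0.chart hn0c (k := k) (by omega)
        rw [cn] at this
        simp only at this
        omega
    · exfalso
      have h5 := hend y1 n1 (by omega) e1
      have h6 := hend y2 n2 (by omega) e2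
      have h7 := nab_le_add hcov (k := 3) (by omega)
      omega
  · -- stair
    exfalso
    have hin : ∀ y, x ≤ y → lev y = 3 → y ∈ Nc := fun y hy hly =>
      h0.strip (mem_lowPart.mpr ⟨onlyB_le (onlyB_up honly hy), by omega⟩)
    have : nab 3 x ≤ 2 := by
      unfold nab
      have h5 : (((lv P 3).filter (fun y => x ≤ y)).image co).card =
          ((lv P 3).filter (fun y => x ≤ y)).card := by
        refine Finset.card_image_of_injOn fun y hy y' hy' hh => ?_
        rw [mem_coe, mem_filter, mem_lv] at hy hy'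
        exact h0.chart.inj y (hin y hy.2 hy.1) y' (hin y' hy'.2 hy'.1) hh
      rw [← h5]
      have h6 : ((lv P 3).filter (fun y => x ≤ y)).image co ⊆ {(0, 3), (1, 2)} := by
        intro p hp
        rw [mem_image] at hp
        obtain ⟨y, hy, rfl⟩ := hp
        rw [mem_filter, mem_lv] at hy
        have h7 := hin y hy.2 hy.1
        have h8 := h0.chart.lev y h7
        have h9 : (co y).1 ≤ (co y).2 := h0.chart.mem y h7
        rw [mem_insert, mem_singleton]
        rcases Nat.lt_or_ge (co y).1 1 with h10 | h10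
        · left
          exact Prod.ext (by simp only; omega) (by simp only; omega)
        · right
          exact Prod.ext (by simp only; omega) (by simp only; omega)
      exact (Finset.card_le_card h6).trans (Finset.card_le_two)
    omega

end Pool.Agent.GaussPoset.Rt
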