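import Pool.Agent.W_448rt_h53.RtA

/-!
# No twin pair of the rectangle cell `(2, 11)` if the window `3` is expensive
(MP_448cb3_co, S8, `j = 12`)
-/

namespace Pool.Agent.GaussPoset.Rt

set_option linter.unusedSectionVars false

open Polynomial Finset Sm

universe u

variable {P : Type u} [Fintype P] [PartialOrder P] [DecidableEq P] {r j w K v : ℕ}
  {N : Tops P → Finset P} {b : Tops P → ℕ} {θ : Tops P → P → ℕ}

/-- the cost of the twin of the rectangle cell `(2, 11)` at the window `3` -/
theorem rt_cost (W : Wk r 12 3 K N b θ) (L : Unq P 3 b) {x x' : P} (h : RtP 12 x x') :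
    ∃ z, z ∈ twA N ∧ tcst 3 (thA N θ) (twT N z, z) = 143 ∧ 3 ≤ b (topOf (twT N z)) := by
  obtain ⟨n0, z, h1, h2, h3, h4, -, -, h5, h6, h7⟩ := h.data W L
  have ln : lev n0 = 13 := by rw [← lev_eq_of_up h4]; exact h.hl
  have n12 : nab 12 n0 = 2 := by
    rw [← nab_congr_up h4 (by omega)]
    exact h.two
  refine ⟨z, h2, ?_, by rw [h3]; exact h5⟩
  rw [h3]
  have hT := W.twn h2
  rw [h3] at hT
  rw [tcst_cst hT]
  simp only
  rw [W.thA_nat h1]
  have e : θ (topOf n0) n0 = 8 := by omega
  rw [e, cst_shift (a := 10) (by omega)]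
  have a4 := h7 4 (by omega) (by omega)
  have a5 := h7 5 (by omega) (by omega)
  have a6 := h7 6 (by omega) (by omega)
  have a7 := h7 7 (by omega) (by omega)
  have a8 := h7 8 (by omega) (by omega)
  have a9 := h7 9 (by omega) (by omega)
  have a10 := h7 10 (by omega) (by omega)
  have a11 := h7 11 (by omega) (by omega)
  have a13 : nab 13 n0 = 1 := by rw [← ln]; exact nab_self
  simp only [Finset.sum_range_succ, Finset.sum_range_zero]
  norm_num
  rw [a4, a5, a6, a7, a8, a9, a10, a11, n12, a13]

/-- **no twin pair in the position of the rectangle cell `(2, 11)`**, if all boundary elements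
and twins of a system of natural sets of window `3` cost at least `10 ^ 2 + 44` -/
theorem no_rt (W : Wk r 12 3 K N b θ) (L : Unq P 3 b) (M : Mn 12 3 N θ v) (hv : 144 ≤ v) :
    ¬ RTw P 12 := by
  rintro ⟨x, x', h⟩
  obtain ⟨z, h1, h2, -⟩ := rt_cost W L h
  have := M.tw z h1
  omega

end Pool.Agent.GaussPoset.Rt
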