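import Pool.Agent.W_448rt_h53.RtB
import Pool.Agent.W_448f4_h70.GN

/-!
# No twin pair of the rectangle cell `(2, 11)`: the version with the larger labels
(MP_448cb3_co, S8, `j = 12`)
-/

namespace Pool.Agent.GaussPoset.Rt

set_option linter.unusedSectionVars false

open Polynomial Finset Sm

universe u

variable {P : Type u} [Fintype P] [PartialOrder P] [DecidableEq P] {r j w K v : ℕ}
  {N : Tops P → Finset P} {b : Tops P → ℕ} {θ : Tops P → P → ℕ}

/-- the cost with the larger labels is the same -/
theorem rt_costS (W : Wk r 12 3 K N b θ) (L : Unq P 3 b) {x x' : P} (h : RtP 12 x x') :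
    ∃ z, z ∈ twA N ∧ tcS 12 3 N b θ z = 143 := by
  obtain ⟨z, h1, h2, h3⟩ := rt_cost W L h
  refine ⟨z, h1, ?_⟩
  unfold tcS
  rw [if_neg, h2]
  rintro ⟨Nc, co, C⟩
  have := C.hb
  omega

/-- **no twin pair in the position of the rectangle cell `(2, 11)`**, if all boundary elements
and twins of a system of natural sets of window `3` cost at least `10 ^ 2 + 44` -/
theorem no_rtS (W : Wk r 12 3 K N b θ) (L : Unq P 3 b) (M : MnS 12 3 N b θ v) (hv : 144 ≤ v) :
    ¬ RTw P 12 := by
  rintro ⟨x, x', h⟩
  obtain ⟨z, h1, h2⟩ := rt_costS W L h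
  have := M.tw z h1
  omega

end Pool.Agent.GaussPoset.Rt
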